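import Mathlib
import Pool.Agent.Work.MP_2d1b31_co.FP.Defs
import Pool.Agent.Work.MP_2d1b31_co.FP.Main

set_option autoImplicit false

namespace Pool.Agent.Results.MP_2d1b31_co.FinitePlanes

open Pool.Agent.SC4 Pool.Agent.SC4.FP

/-- Graphs on `N` vertices embedded in a projective plane of order at most `N / 5`.
(1) For every `c` there is `R` such that for all `n` for which no `m` in `[√n - R, √n + R]` is the order
of a projective plane, some `N₀ ≤ n + √n - c` has the property that the complement of every such graph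
on `N ≥ N₀` vertices contains `K_{1,n}`. (2) For every `c < 3/2` there are infinitely many `n` with this
property. (3) For planes of prime power order the Ramsey number is
`n + max (2√n - q, r² + r + 1 - n)` up to `C (1 + (q - √n)² / √n)`. -/
theorem result :
    (∀ c : ℝ, ∃ R : ℝ, ∀ n : ℕ, (∀ m : ℕ, PlaneOrder m → R < |(m : ℝ) - Real.sqrt n|) →
      ∃ N0 : ℕ, (N0 : ℝ) ≤ (n : ℝ) + Real.sqrt n - c ∧
        ∀ N : ℕ, N0 ≤ N → ∀ G : SimpleGraph (Fin N), (∃ m, 5 * m ≤ N ∧ PlaneEmb G m) →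
          (completeBipartiteGraph (Fin 1) (Fin n)).IsContained Gᶜ) ∧
    (∀ c : ℝ, c < 3 / 2 → ∀ n0 : ℕ, ∃ n : ℕ, n0 ≤ n ∧
      ∃ N0 : ℕ, (N0 : ℝ) ≤ (n : ℝ) + Real.sqrt n - c ∧
        ∀ N : ℕ, N0 ≤ N → ∀ G : SimpleGraph (Fin N), (∃ m, 5 * m ≤ N ∧ PlaneEmb G m) →
          (completeBipartiteGraph (Fin 1) (Fin n)).IsContained Gᶜ) ∧
    (∃ C : ℝ, ∀ n q : ℕ, 1000 ≤ n → IsPrimePow q → n ≤ q ^ 2 →
      (∀ r : ℕ, IsPrimePow r → n ≤ r ^ 2 → q ≤ r) →
      (∀ N : ℕ, (∀ r : ℕ, IsPrimePow r → r ^ 2 < n → r ^ 2 + r + 1 < N) →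
        (n : ℝ) + 2 * Real.sqrt n - q + C * (1 + (q - Real.sqrt n) ^ 2 / Real.sqrt n) < N →
        ∀ G : SimpleGraph (Fin N), (∃ m, IsPrimePow m ∧ 5 * m ≤ N ∧ PlaneEmb G m) →
          (completeBipartiteGraph (Fin 1) (Fin n)).IsContained Gᶜ) ∧
      (∃ N : ℕ, (n : ℝ) + 2 * Real.sqrt n - q - 10 ≤ N ∧ 5 * q ≤ N ∧
        ∃ G : SimpleGraph (Fin N), PlaneEmb G q ∧
          ¬ (SimpleGraph.cycleGraph 4).IsContained G ∧
          ¬ (completeBipartiteGraph (Fin 1) (Fin n)).IsContained Gᶜ)) :=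
  main

end Pool.Agent.Results.MP_2d1b31_co.FinitePlanes
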