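import Mathlib
import Pool.Agent.Work.MP_2d1b31_co.TP.Defs
import Pool.Agent.Work.MP_2d1b31_co.TP.Main
import Pool.Agent.Work.MP_2d1b31_co.TP.Conj

set_option autoImplicit false

namespace Pool.Agent.Results.MP_2d1b31_co.TranslationPlanes

open Pool.Agent.SC4 Pool.Agent.SC4.TP

/-- (1) Graphs linear over a division ring are embedded in translation planes, with any vertex as the
line at infinity. (2) Let `q` be the least prime power with `n ≤ q²`. If `N` exceeds
`n + 2√n - q + C (1 + (q - √n)² / √n)` and all `r² + r + 1`, `r` a prime power with `r² < n`, then the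
complement of every graph on `N` vertices embedded in a translation plane contains `K_{1,n}`; and there
are graphs linear over fields, without 4-cycle and without `K_{1,n}` in the complement, on at least
`n + 2√n - q - 10` vertices and on `r² + r + 1` vertices. (3) For every `c` there is `R` such that for
every `n` without prime powers in `[√n - R, √n + R]` some `N₀ ≤ n + √n - c` has the property that the
complement of every graph on `N ≥ N₀` vertices embedded in a translation plane contains `K_{1,n}`. -/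
theorem result :
    (∀ (K : Type) [DivisionRing K] (N : ℕ) (G : SimpleGraph (Fin N)),
      LinearOver K G → ∀ w, TransPlane G w) ∧
    (∃ C : ℝ, ∀ n q : ℕ, 1 ≤ n → IsPrimePow q → n ≤ q ^ 2 →
      (∀ r : ℕ, IsPrimePow r → n ≤ r ^ 2 → q ≤ r) →
      (∀ N : ℕ, (∀ r : ℕ, IsPrimePow r → r ^ 2 < n → r ^ 2 + r + 1 < N) →
        (n : ℝ) + 2 * Real.sqrt n - q + C * (1 + (q - Real.sqrt n) ^ 2 / Real.sqrt n) < N →
        ∀ (G : SimpleGraph (Fin N)) (w : Fin N), TransPlane G w →
          (completeBipartiteGraph (Fin 1) (Fin n)).IsContained Gᶜ) ∧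
      (∃ N : ℕ, (n : ℝ) + 2 * Real.sqrt n - q - 10 ≤ N ∧
        ∃ (K : Type) (_ : Field K) (_ : Fintype K), Fintype.card K = q ∧
          ∃ G : SimpleGraph (Fin N), LinearOver K G ∧
            ¬ (SimpleGraph.cycleGraph 4).IsContained G ∧
            ¬ (completeBipartiteGraph (Fin 1) (Fin n)).IsContained Gᶜ) ∧
      (∀ r : ℕ, IsPrimePow r → r ^ 2 < n →
        ∃ (K : Type) (_ : Field K) (_ : Fintype K), Fintype.card K = r ∧
          ∃ G : SimpleGraph (Fin (r ^ 2 + r + 1)), LinearOver K G ∧
            ¬ (SimpleGraph.cycleGraph 4).IsContained G ∧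
            ¬ (completeBipartiteGraph (Fin 1) (Fin n)).IsContained Gᶜ)) ∧
    (∀ c : ℝ, ∃ R : ℝ, ∀ n : ℕ,
      (∀ q : ℕ, IsPrimePow q → R < |(q : ℝ) - Real.sqrt n|) →
      ∃ N0 : ℕ, (N0 : ℝ) ≤ (n : ℝ) + Real.sqrt n - c ∧
        ∀ N : ℕ, N0 ≤ N → ∀ (G : SimpleGraph (Fin N)) (w : Fin N), TransPlane G w →
          (completeBipartiteGraph (Fin 1) (Fin n)).IsContained Gᶜ) :=
  ⟨main.1, main.2, conj⟩

end Pool.Agent.Results.MP_2d1b31_co.TranslationPlanes
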