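import Mathlib
import Pool.Agent.Work.MP_2d1b31_co.TN.Defs
import Pool.Agent.Work.MP_2d1b31_co.TN.Main2
import Pool.Agent.Work.MP_2d1b31_co.TP.Defs
import Pool.Agent.Work.MP_2d1b31_co.TP.ToTN
import Pool.Agent.Work.MP_2d1b31_co.TP.LinT

set_option autoImplicit false

namespace Pool.Agent.Results.MP_2d1b31_co.TranslationalVertex

open Pool.Agent.SC4

open Classical in
/-- (1) For every `c` and `ε > 0` there is `r` such that all `n` outside a set of upper density at most
`ε` have this property: for some `N₀ ≤ n + √n - c`, every graph on `N ≥ N₀` vertices contains a 4-cycle,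
or its complement contains `K_{1,n}`, or it has no vertex with `r` translational classes.
(2) In a graph which is linear over a division ring, every set of neighbours of every vertex `w` is a
set of translational classes at `w`. -/
theorem result :
    (∀ c ε : ℝ, 0 < ε → ∃ (r X0 : ℕ), ∀ X : ℕ, X0 ≤ X →
      (((Finset.range (X + 1)).filter (fun n : ℕ => ¬ ∃ N0 : ℕ,
        (N0 : ℝ) ≤ (n : ℝ) + Real.sqrt (n : ℝ) - c ∧ ∀ N : ℕ, N0 ≤ N →
        ∀ G : SimpleGraph (Fin N), (SimpleGraph.cycleGraph 4).IsContained G ∨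
          (completeBipartiteGraph (Fin 1) (Fin n)).IsContained Gᶜ ∨
          ∀ (w : Fin N) (I : Finset (Fin N)), r ≤ I.card →
            ¬ TN.Translational G w I)).card : ℝ) ≤ ε * X) ∧
    (∀ (K : Type) [DivisionRing K] (N : ℕ) (G : SimpleGraph (Fin N)), TP.LinearOver K G →
      ∀ (w : Fin N) (I : Finset (Fin N)), (∀ x ∈ I, G.Adj w x) → TN.Translational G w I) :=
  ⟨TN.main', fun K _ _ G hG w I hI => TP.toTN (TP.linT K G hG w) I hI⟩

end Pool.Agent.Results.MP_2d1b31_co.TranslationalVertex
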