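import Mathlib
import Pool.Agent.Work.MP_2d1b31_co.Defs
import Pool.Agent.Work.MP_2d1b31_co.Main

set_option autoImplicit false

open Pool.Agent.SC4

namespace Pool.Agent.Results.MP_2d1b31_co.TwoAboveSquares

/-- Write `f(n) = R(C₄, K_{1,n})`; `RamseyLE n N` says `f(n) ≤ N`.
(1) `f(m² + 2) ≤ m² + m + 3` for all `m ≥ 3` such that `m ≠ 11` and `m + 1` is not an even perfect
square. (2) `f(n + t) ≤ f(n) + t + 1` for all even `t ≤ f(n) - n + 1`. -/
theorem result :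
    (∀ m : ℕ, 3 ≤ m → m ≠ 11 → (∀ b : ℕ, m + 1 ≠ (2 * b) ^ 2) →
      RamseyLE (m ^ 2 + 2) (m ^ 2 + m + 3)) ∧
    (∀ n N t : ℕ, Even t → t ≤ N + 1 - n → RamseyLE n N → RamseyLE (n + t) (N + t + 1)) :=
  ⟨two_above, fun n N t ht htN h => growth n N t ht htN h⟩

end Pool.Agent.Results.MP_2d1b31_co.TwoAboveSquares
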